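import Pool.Agent.H45.CircMax.Proof

/-!
# Failure of the restricted weak type `(2,2)` inequality for circular maximal functions

The definitions are in `Pool/Agent/H45/CircMax/Defs.lean`. Small Kakeya arrangements of
`2⁻ⁿ × 4⁻ⁿ` parallelograms give a necessary condition on the set `T` of radii; for
`T = (0, ∞)` it fails.
-/

open MeasureTheory Set
open Pool.Agent.H45.CircMax

namespace Pool.Agent.Results.MP_0c3b5b_an.RadiusSets

theorem result :
    (∀ C : ℝ, ¬ RestrictedWeakType (Ioi 0) C) ∧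
    ∀ (T : Set ℝ) (C : ℝ), 0 ≤ C → RestrictedWeakType T C →
      ∀ R δ : ℝ, 0 < R → 0 < δ → δ ≤ 1/2 →
        volume {u ∈ Icc R (2 * R) | ∃ t ∈ T, |t - u| < δ * R} ≤
          ENNReal.ofReal (2 ^ 40 * C * R / Real.log (1 / δ)) :=
  main

end Pool.Agent.Results.MP_0c3b5b_an.RadiusSets
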